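import Pool.Agent.H59.Ray.Main
import Pool.Agent.H75.Ray.All

/-!
# MP_934449_co: the excluded minors with at most 8 elements for the quaternary Rayleigh matroids

There are exactly seven quaternary ones, up to isomorphism: the matroids `N 0, ..., N 6`, all of
rank 4 with 8 elements.
-/

set_option autoImplicit false

namespace Pool.Agent.Results.MP_934449_co.EightElements

open Pool.Agent.H55.Ray Pool.Agent.H59.Ray Matroid
open Pool.Agent.H75.Ray (allGood)

theorem copy_rank {α : Type*} [Fintype α] {M : Matroid α} {j : Fin 7} (h : IsCopy (N j) M)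
    (B : Set α) (hB : M.IsBase B) : B.ncard = 4 := by
  classical
  obtain ⟨φ, hφ, rfl⟩ := h
  rw [map_isBase_iff] at hB
  obtain ⟨B₀, hB₀, rfl⟩ := hB
  rw [Set.ncard_image_of_injective _ hφ]
  have h1 : ((B₀.toFinset : Finset (Fin 8)) : Set (Fin 8)) = B₀ := Set.coe_toFinset B₀
  rw [← h1] at hB₀ ⊢
  rw [Set.ncard_coe_finset]
  exact ((N_isBase j _).1 hB₀).1

/-- **The classification.** `K` is the field with four elements. A matroid `M` with at most 8
elements is an excluded minor for the class of the `K`-representable Rayleigh matroids iff it is an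
excluded minor for representability over `K` or isomorphic to one of the seven matroids `N j`; and
a `K`-representable `M` with at most 8 elements is Rayleigh iff it is isomorphic to none of them.
The seven are pairwise not isomorphic, `K`-representable, of rank 4 with 8 elements. -/
theorem result {K : Type*} [Field K] [Fintype K] (hK : Fintype.card K = 4) {α : Type*}
    [Fintype α] (M : Matroid α) :
    (M.E.ncard ≤ 8 →
      (IsExcl K M ↔ (¬ IsRepr K M ∧ ∀ e ∈ M.E, IsRepr K (M ＼ {e}) ∧ IsRepr K (M ／ {e})) ∨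
        ∃ j : Fin 7, IsCopy (N j) M)) ∧
    (M.E.ncard ≤ 8 → IsRepr K M → (IsRayleigh M ↔ ∀ j : Fin 7, ¬ IsCopy (N j) M)) ∧
    (∀ j : Fin 7, IsCopy (N j) M → IsExcl K M ∧ IsRepr K M ∧ M.E.ncard = 8 ∧
      ∀ B, M.IsBase B → B.ncard = 4) ∧
    (∀ i j : Fin 7, IsCopy (N i) M → IsCopy (N j) M → i = j) := by
  refine ⟨fun h8 => main allGood hK M h8, fun h8 hr => ⟨fun h j hj => ?_, fun h => ?_⟩,
    fun j hj => ?_, fun i j hi hj => copy_unique hi hj⟩
  · exact (copy_excl hK hj).2.2.1 ⟨hr, h⟩
  · by_contra hn
    obtain ⟨j, hj⟩ := ray_or_copy allGood hK M h8 hr hn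
    exact h j hj
  · obtain ⟨h1, h2, h3⟩ := copy_excl hK hj
    exact ⟨h3, h1, h2, copy_rank hj⟩

end Pool.Agent.Results.MP_934449_co.EightElements
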