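import Pool.Agent.H59.Ray.ElevN
import Pool.Agent.H59.Ray.Dual
import Pool.Agent.H75.RayN.AllN

/-!
MP_934449_co, Q1: excluded minors with eleven elements for the class of the quaternary Rayleigh matroids.
-/

set_option autoImplicit false

namespace Pool.Agent.Results.MP_934449_co.ElevenElements

open Pool.Agent.H55.Ray Pool.Agent.H59.Ray

/-- There is a quaternary matroid of rank 4 with eleven elements such that it and its dual (of rank
7) are excluded minors for the class of the quaternary Rayleigh matroids. -/
theorem result : ∃ M : Matroid (Fin 11), M.E = Set.univ ∧ (∀ B, M.IsBase B → B.ncard = 4) ∧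
    (∀ B, M✶.IsBase B → B.ncard = 7) ∧
    ∀ (K : Type) [Field K] [Fintype K], Fintype.card K = 4 →
      IsRepr K M ∧ IsExcl K M ∧ IsRepr K M✶ ∧ IsExcl K M✶ := by
  refine ⟨M11, rfl, fun B hB => M11_base_ncard hB, fun B hB => ?_, fun K _ _ hK => ?_⟩
  · rw [Matroid.dual_isBase_iff'] at hB
    have h1 := M11_base_ncard hB.1
    have h2 := Set.ncard_sdiff_add_ncard_of_subset hB.2 (Set.toFinite M11.E)
    have h3 : M11.E.ncard = 11 := by
      have h4 : M11.E = Set.univ := rfl
      rw [h4, Set.ncard_univ, Nat.card_eq_fintype_card, Fintype.card_fin]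
    omega
  · have hE := M11_excl Pool.Agent.H75.RayN.delGood M11_not hK
    have hR := M11_isRepr hK
    exact ⟨hR, hE, isRepr_dual hR, isExcl_dual hE⟩

end Pool.Agent.Results.MP_934449_co.ElevenElements
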